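import Pool.Agent.Lib.FermX.Defs
import Pool.Agent.Lib.Pabc11.Final

/-!
# FermX.Arch: triples with a small member (1 h)

`Pabc11.main_shape (ε/6) (1/2)` (`z = 1`): for `t = (min a b, max a b)`; the alternative `log t.1 ≤ (1 - 1/2) ht t` of `Small` holds as
`t.1 ^ 2 ≤ c`. With `n = Y ^ 6`, `k = 6`, `s = 1`: `N t = A B C x^p y^q z^r`, `A B C x y z ≤ Y^6`; `C0^7 * log (Y^6) ≤ log c` as `c ≥ Y^M`,
`M ≥ 6 C0^7`. The map `(a, b, c) ↦ (min a b, max a b)` is at most two to one; `(Y^6)^(ε/6) = Y^ε`, and `main_shape` has a factor 2 to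
spare (`2 * T.card ≤ ...`). `∀ᶠ n` gives a threshold for `Y ^ 6 ≥ Y`.
-/

namespace Pool.Agent.Lib.FermX

open Pool.Agent.Lib.FewX

open Pool.Agent.Lib.Pabc2 in
theorem ArchAux.fibre (T : Finset (ℕ × ℕ × ℕ)) (hT : ∀ t ∈ T, t.1 + t.2.1 = t.2.2) :
    T.card ≤ 2 * (T.image fun t => (min t.1 t.2.1, max t.1 t.2.1)).card := by
  classical
  refine Finset.card_le_mul_card_image T 2 ?_
  rintro ⟨m, n⟩ _
  refine (Finset.card_le_card (t := {(m, n, m + n), (n, m, m + n)}) ?_).trans Finset.card_le_two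
  rintro ⟨a, b, c⟩ ht
  rw [Finset.mem_filter] at ht
  obtain ⟨h1, h2⟩ := ht
  have h3 := hT _ h1
  simp only [Prod.mk.injEq] at h2 h3
  obtain ⟨h4, h5⟩ := h2
  rw [Finset.mem_insert, Finset.mem_singleton]
  simp only [Prod.mk.injEq]
  omega

theorem arch (ε : ℝ) (hε : 0 < ε) : ∃ M Y0 : ℕ, 2 ≤ Y0 ∧ ∀ Y : ℕ, Y0 ≤ Y → ∀ T : Finset (ℕ × ℕ × ℕ),
    (∀ t ∈ T, GF Y t ∧ Y ^ M ≤ t.2.2 ∧ (t.1 ^ 2 ≤ t.2.2 ∨ t.2.1 ^ 2 ≤ t.2.2)) →
    (T.card : ℝ) ≤ (Y : ℝ) ^ ε := by
  classical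
  obtain ⟨η, C0, hη, hC0, hev⟩ := Pool.Agent.Lib.Pabc11.main_shape (ε / 6) (1 / 2) (by positivity)
    (by norm_num) (by norm_num)
  obtain ⟨n0, hn0⟩ := hev.exists_forall_of_atTop
  obtain ⟨M, hM⟩ := exists_nat_ge (6 * C0 ^ 7)
  refine ⟨M, max n0 2, le_max_right _ _, ?_⟩
  intro Y hY T hT
  have hY2 : 2 ≤ Y := (le_max_right _ _).trans hY
  have hYn : n0 ≤ Y ^ 6 :=
    ((le_max_left _ _).trans hY).trans (Nat.le_self_pow (by norm_num) Y)
  have hYR : (1 : ℝ) ≤ Y := by
    have : 1 ≤ Y := by omega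
    exact_mod_cast this
  have hlogY : 0 ≤ Real.log Y := Real.log_nonneg hYR
  have hcard := ArchAux.fibre T fun t ht => (hT t ht).1.1.2.2.2.2.2.2
  have hmain := hn0 (Y ^ 6) hYn 1 (T.image fun t => (min t.1 t.2.1, max t.1 t.2.1)) le_rfl (by
    intro s hs
    obtain ⟨t, ht, rfl⟩ := Finset.mem_image.1 hs
    obtain ⟨⟨habc, hA, hB, hC⟩, hcM, hsq⟩ := hT t ht
    obtain ⟨ha0, hb0, hc0, hab, hac, hbc, hsum⟩ := habc
    have hmm : min t.1 t.2.1 + max t.1 t.2.1 = t.2.2 := by omega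
    have hmul : min t.1 t.2.1 * max t.1 t.2.1 = t.1 * t.2.1 := min_mul_max _ _
    have hht : Pool.Agent.Lib.Pabc2.ht (min t.1 t.2.1, max t.1 t.2.1) = Real.log (t.2.2 : ℝ) := by
      unfold Pool.Agent.Lib.Pabc2.ht
      rw [← hmm]
      push_cast
      rfl
    have hIs : Pool.Agent.Lib.Pabc2.IsT (min t.1 t.2.1, max t.1 t.2.1) := by
      refine ⟨by simp only; omega, by simp only; omega, ?_⟩
      show Nat.Coprime (min t.1 t.2.1) (max t.1 t.2.1)
      rcases le_total t.1 t.2.1 with h | h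
      · rw [min_eq_left h, max_eq_right h]
        exact hab
      · rw [min_eq_right h, max_eq_left h]
        exact hab.symm
    refine ⟨hIs, Or.inl ?_, 6, ?_, ?_⟩
    · rw [hht]
      show Real.log ((min t.1 t.2.1 : ℕ) : ℝ) ≤ _
      have h1 : (min t.1 t.2.1) ^ 2 ≤ t.2.2 := by
        rcases hsq with h | h
        · exact (Nat.pow_le_pow_left (min_le_left _ _) 2).trans h
        · exact (Nat.pow_le_pow_left (min_le_right _ _) 2).trans h
      have h2 : (((min t.1 t.2.1 : ℕ) : ℝ)) ^ 2 ≤ (t.2.2 : ℝ) := by exact_mod_cast h1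
      have h3 : (0 : ℝ) < ((min t.1 t.2.1 : ℕ) : ℝ) := by
        have : 0 < min t.1 t.2.1 := by omega
        exact_mod_cast this
      have h4 := Real.log_le_log (by positivity) h2
      rw [Real.log_pow] at h4
      push_cast at h4 ⊢
      linarith
    · obtain ⟨A, x, p, hAo, hAY, hx1, hxY, ha⟩ := hA
      obtain ⟨B, y, q, hBo, hBY, hy1, hyY, hb⟩ := hB
      obtain ⟨C, z, r, hCo, hCY, hz1, hzY, hc⟩ := hC
      refine ⟨1, ![A, B, C, x, y, z], ![1, 1, 1, p, q, r], one_pos, ?_, ?_, ?_, ?_⟩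
      · intro i
        fin_cases i
        · exact hAo.pos
        · exact hBo.pos
        · exact hCo.pos
        · exact hx1
        · exact hy1
        · exact hz1
      · unfold Pool.Agent.Lib.Pabc2.N
        show min t.1 t.2.1 * max t.1 t.2.1 * (min t.1 t.2.1 + max t.1 t.2.1) = _
        rw [hmm, hmul, ha, hb, hc]
        simp [Fin.prod_univ_succ]
        ring
      · rw [Nat.primeFactors_one, Finset.prod_empty, Nat.cast_one]
        exact Real.one_le_rpow (by exact_mod_cast Nat.one_le_pow _ _ (by omega)) hη.le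
      · rw [Nat.primeFactors_one, Finset.prod_empty, one_mul]
        calc ∏ i, (![A, B, C, x, y, z] : Fin 6 → ℕ) i ≤ ∏ _i : Fin 6, Y := by
              refine Finset.prod_le_prod' fun i _ => ?_
              fin_cases i
              · exact hAY
              · exact hBY
              · exact hCY
              · exact hxY
              · exact hyY
              · exact hzY
          _ = Y ^ 6 := by simp
    · rw [hht]
      have h1 : ((Y ^ M : ℕ) : ℝ) ≤ (t.2.2 : ℝ) := by exact_mod_cast hcM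
      push_cast at h1
      have h2 := Real.log_le_log (by positivity) h1
      rw [Real.log_pow] at h2
      refine le_trans ?_ h2
      push_cast
      rw [Real.log_pow]
      have h3 : 6 * C0 ^ 7 * Real.log Y ≤ M * Real.log Y := mul_le_mul_of_nonneg_right hM hlogY
      calc C0 ^ (6 + 1) * (((6 : ℕ) : ℝ) * Real.log Y) = 6 * C0 ^ 7 * Real.log Y := by
            push_cast
            ring
        _ ≤ _ := h3)
  have h5 : (((Y ^ 6 : ℕ) : ℝ)) ^ (ε / 6) = (Y : ℝ) ^ ε := by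
    push_cast
    rw [← Real.rpow_natCast, ← Real.rpow_mul (by linarith)]
    congr 1
    push_cast
    ring
  rw [h5, one_mul] at hmain
  refine le_trans ?_ hmain
  exact_mod_cast hcard

end Pool.Agent.Lib.FermX
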