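import Pool.Agent.Lib.FewX.Triples

/-!
# FermX: generalised Fermat equations with odd coefficients, all exponents, all heights

Definitions. `GF Y (a, b, c)`: abc triple with `a = A x^p`, `b = B y^q`, `c = C z^r`, `A, B, C` odd, all of
`A, B, C, x, y, z` between `1` and `Y`, exponents arbitrary. `GFM A B C M Y`: the same with fixed coefficients and
exponents at least `M`.
-/

namespace Pool.Agent.Lib.FermX

open Pool.Agent.Lib.FewX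

/-- `m = A x^p` with `A` odd, `1 ≤ A, x ≤ Y` -/
def Mem (Y m : ℕ) : Prop :=
  ∃ A x p : ℕ, Odd A ∧ A ≤ Y ∧ 1 ≤ x ∧ x ≤ Y ∧ m = A * x ^ p

/-- abc triples `(A x^p, B y^q, C z^r)` with odd coefficients `A, B, C ≤ Y` and `x, y, z ≤ Y` -/
def GF (Y : ℕ) (t : ℕ × ℕ × ℕ) : Prop :=
  AbcTriple t.1 t.2.1 t.2.2 ∧ Mem Y t.1 ∧ Mem Y t.2.1 ∧ Mem Y t.2.2

/-- abc triples `(A x^p, B y^q, C z^r)` with given coefficients, `x, y, z ≤ Y` and `p, q, r ≥ M` -/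
def GFM (A B C M Y : ℕ) (t : ℕ × ℕ × ℕ) : Prop :=
  AbcTriple t.1 t.2.1 t.2.2 ∧ ∃ x y z p q r : ℕ, 1 ≤ x ∧ x ≤ Y ∧ 1 ≤ y ∧ y ≤ Y ∧ 1 ≤ z ∧ z ≤ Y ∧
    M ≤ p ∧ M ≤ q ∧ M ≤ r ∧ t.1 = A * x ^ p ∧ t.2.1 = B * y ^ q ∧ t.2.2 = C * z ^ r

end Pool.Agent.Lib.FermX
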