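import Pool.Agent.Lib.FermX.Defs
import Pool.Agent.Lib.TwoAd.Gens

/-!
# FermX.Tall: there are no very tall triples without small member (2-adic argument)
-/

open Filter

namespace Pool.Agent.Lib.FermX

open Pool.Agent.Lib.FewX Pool.Agent.TwoAd

theorem odd_member {Y m : ℕ} (h : Mem Y m) (hm : Odd m) : ∃ A x p : ℕ, Odd A ∧ A ≤ Y ∧ Odd x ∧
    x ≤ Y ∧ m = A * x ^ p ∧ 2 ^ p ≤ m := by
  obtain ⟨A, x, p, hA, hAY, hx1, hxY, rfl⟩ := h
  have hxp : Odd (x ^ p) := (Nat.odd_mul.1 hm).2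
  have hA1 : 1 ≤ A := hA.pos
  rcases Nat.eq_zero_or_pos p with hp | hp
  · subst hp
    exact ⟨A, 1, 0, hA, hAY, odd_one, by omega, by simp, by simpa using hA1⟩
  · have hx : Odd x := Nat.Odd.of_mul_left (m := x) (n := x ^ (p - 1)) (by
      rw [← pow_succ']
      rwa [Nat.sub_add_cancel hp])
    rcases Nat.lt_or_ge x 2 with h2 | h2
    · have : x = 1 := by omega
      subst this
      exact ⟨A, 1, 0, hA, hAY, odd_one, by omega, by simp, by simpa using hA1⟩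
    · refine ⟨A, x, p, hA, hAY, hx, hxY, rfl, ?_⟩
      calc 2 ^ p ≤ x ^ p := Nat.pow_le_pow_left h2 p
        _ ≤ A * x ^ p := Nat.le_mul_of_pos_left _ hA1

theorem even_member {Y m : ℕ} (h : Mem Y m) (hm : Even m) : ∃ K : ℕ, 2 ^ K ∣ m ∧ m ≤ Y ^ (K + 1) := by
  obtain ⟨A, x, p, hA, hAY, hx1, hxY, rfl⟩ := h
  have hxp : Even (x ^ p) := by
    rcases Nat.even_mul.1 hm with h | h
    · exact absurd h (Nat.not_even_iff_odd.2 hA)
    · exact h
  have hx : Even x := (Nat.even_pow.1 hxp).1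
  refine ⟨p, ?_, ?_⟩
  · obtain ⟨y, hy⟩ := hx
    have h2 : (2 : ℕ) ∣ x := ⟨y, by omega⟩
    exact (pow_dvd_pow_of_dvd h2 p).mul_left _
  · calc A * x ^ p ≤ Y * Y ^ p := Nat.mul_le_mul hAY (Nat.pow_le_pow_left hxY p)
      _ = Y ^ (p + 1) := by rw [pow_succ']

theorem four_dvd_odd_sq {x : ℕ} (hx : Odd x) : (4 : ℤ) ∣ (x : ℤ) ^ 2 - 1 := by
  obtain ⟨y, hy⟩ := hx
  refine ⟨(y : ℤ) ^ 2 + y, ?_⟩
  rw [hy]
  push_cast
  ring

/-- the finite bound -/
theorem four_gens : ∃ N : ℕ, ∀ (l h k B y q C z r : ℕ), 1 ≤ l → 1 ≤ h → Odd B → Odd y → Odd C → Odd z →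
    B ≤ 2 ^ l → y ≤ 2 ^ l → C ≤ 2 ^ l → z ≤ 2 ^ l → q < 2 ^ h → r < 2 ^ h →
    (2 : ℤ) ^ k ∣ ((B * y ^ q : ℕ) : ℤ) ^ 2 - ((C * z ^ r : ℕ) : ℤ) ^ 2 → B * y ^ q ≠ C * z ^ r →
    k < (l + h + 2) ^ N := by
  obtain ⟨N, hN⟩ := gens_bound 4
  refine ⟨N, ?_⟩
  intro l h k B y q C z r hl hh hB hy hC hz hBl hyl hCl hzl hq hr hdvd hne
  obtain ⟨LB, hLB⟩ := exists_log ((B : ℤ) ^ 2) (four_dvd_odd_sq hB) k
  obtain ⟨Ly, hLy⟩ := exists_log ((y : ℤ) ^ 2) (four_dvd_odd_sq hy) k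
  obtain ⟨LC, hLC⟩ := exists_log ((C : ℤ) ^ 2) (four_dvd_odd_sq hC) k
  obtain ⟨Lz, hLz⟩ := exists_log ((z : ℤ) ^ 2) (four_dvd_odd_sq hz) k
  have hBpos := hB.pos
  have hypos := hy.pos
  have hCpos := hC.pos
  have hzpos := hz.pos
  have h2h : (1 : ℤ) < 2 ^ h := one_lt_pow₀ (by norm_num) (by omega)
  refine hN (Fin 4) (by simp) l h k ![B, y, C, z] ![LB, Ly, LC, Lz] ![1, (q : ℤ), -1, -(r : ℤ)] hl
    ?_ ?_ ?_ ?_ ?_ ?_
  · intro i
    fin_cases i <;> simp <;> omega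
  · intro i
    fin_cases i <;> simpa
  · intro i
    fin_cases i
    · exact hLB
    · exact hLy
    · exact hLC
    · exact hLz
  · intro i
    have hq' : (q : ℤ) < 2 ^ h := by exact_mod_cast hq
    have hr' : (r : ℤ) < 2 ^ h := by exact_mod_cast hr
    fin_cases i
    · simpa using h2h
    · simpa using hq'
    · simpa using h2h
    · simpa using hr'
  · -- the relation between the logarithms
    have e1 : (2 : ℤ) ^ k ∣ ((y : ℤ) ^ 2) ^ q - (5 ^ Ly) ^ q := hLy.trans (sub_dvd_pow_sub_pow _ _ _)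
    have e2 : (2 : ℤ) ^ k ∣ ((z : ℤ) ^ 2) ^ r - (5 ^ Lz) ^ r := hLz.trans (sub_dvd_pow_sub_pow _ _ _)
    have e3 : (2 : ℤ) ^ k ∣ (5 : ℤ) ^ (LB + q * Ly) - 5 ^ (LC + r * Lz) := by
      have h1 : (2 : ℤ) ^ k ∣ (B : ℤ) ^ 2 * ((y : ℤ) ^ 2) ^ q - 5 ^ LB * (5 ^ Ly) ^ q := by
        have h3 : (B : ℤ) ^ 2 * ((y : ℤ) ^ 2) ^ q - 5 ^ LB * (5 ^ Ly) ^ q =
            (B : ℤ) ^ 2 * (((y : ℤ) ^ 2) ^ q - (5 ^ Ly) ^ q) + ((B : ℤ) ^ 2 - 5 ^ LB) * (5 ^ Ly) ^ q := by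
          ring
        rw [h3]
        exact dvd_add (e1.mul_left _) (hLB.mul_right _)
      have h2 : (2 : ℤ) ^ k ∣ (C : ℤ) ^ 2 * ((z : ℤ) ^ 2) ^ r - 5 ^ LC * (5 ^ Lz) ^ r := by
        have h3 : (C : ℤ) ^ 2 * ((z : ℤ) ^ 2) ^ r - 5 ^ LC * (5 ^ Lz) ^ r =
            (C : ℤ) ^ 2 * (((z : ℤ) ^ 2) ^ r - (5 ^ Lz) ^ r) + ((C : ℤ) ^ 2 - 5 ^ LC) * (5 ^ Lz) ^ r := by
          ring
        rw [h3]
        exact dvd_add (e2.mul_left _) (hLC.mul_right _)
      have h3 : (5 : ℤ) ^ (LB + q * Ly) - 5 ^ (LC + r * Lz) =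
          (((B * y ^ q : ℕ) : ℤ) ^ 2 - ((C * z ^ r : ℕ) : ℤ) ^ 2) -
          ((B : ℤ) ^ 2 * ((y : ℤ) ^ 2) ^ q - 5 ^ LB * (5 ^ Ly) ^ q) +
          ((C : ℤ) ^ 2 * ((z : ℤ) ^ 2) ^ r - 5 ^ LC * (5 ^ Lz) ^ r) := by
        rw [pow_add, pow_add, mul_comm q Ly, mul_comm r Lz, pow_mul, pow_mul]
        push_cast
        ring
      rw [h3]
      exact dvd_add (dvd_sub hdvd h1) h2
    have h4 := log_inj k _ _ e3
    have h5 : ∑ i, (![1, (q : ℤ), -1, -(r : ℤ)] : Fin 4 → ℤ) i * ((![LB, Ly, LC, Lz] : Fin 4 → ℕ) i : ℤ) =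
        ((LB + q * Ly : ℕ) : ℤ) - ((LC + r * Lz : ℕ) : ℤ) := by
      rw [Fin.sum_univ_four]
      simp
      ring
    rw [h5]
    exact h4
  · -- nontrivial
    have h5 : ∑ i, ((![1, (q : ℤ), -1, -(r : ℤ)] : Fin 4 → ℤ) i : ℝ) *
        Real.log ((![B, y, C, z] : Fin 4 → ℕ) i) =
        Real.log ((B * y ^ q : ℕ) : ℝ) - Real.log ((C * z ^ r : ℕ) : ℝ) := by
      rw [Fin.sum_univ_four]
      push_cast
      rw [Real.log_mul (by exact_mod_cast hBpos.ne')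
          (pow_ne_zero _ (by exact_mod_cast hypos.ne')),
        Real.log_mul (by exact_mod_cast hCpos.ne')
          (pow_ne_zero _ (by exact_mod_cast hzpos.ne')), Real.log_pow, Real.log_pow]
      simp
      ring
    rw [h5]
    intro h6
    have h7 : Real.log ((B * y ^ q : ℕ) : ℝ) = Real.log ((C * z ^ r : ℕ) : ℝ) := by linarith
    have h8 : ((B * y ^ q : ℕ) : ℝ) = ((C * z ^ r : ℕ) : ℝ) := by
      apply Real.log_injOn_pos
      · have : 0 < B * y ^ q := Nat.mul_pos hBpos (Nat.pow_pos hypos)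
        exact Set.mem_Ioi.2 (by exact_mod_cast this)
      · have : 0 < C * z ^ r := Nat.mul_pos hCpos (Nat.pow_pos hzpos)
        exact Set.mem_Ioi.2 (by exact_mod_cast this)
      · exact h7
    exact hne (by exact_mod_cast h8)

/-- the bound for a triple: `E` the even member, `u`, `v` the others -/
theorem member_bound : ∃ N : ℕ, ∀ Y E u v : ℕ, 2 ≤ Y → Mem Y E → Even E → Mem Y u → Odd u → Mem Y v →
    Odd v → u ≠ v → ((E : ℤ) ∣ (u : ℤ) ^ 2 - (v : ℤ) ^ 2) → 0 < E → u < E ^ 2 → v < E ^ 2 →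
    ∃ K : ℕ, E ≤ Y ^ (K + 1) ∧
      K < ((Nat.log 2 Y + 1) + (Nat.log 2 (2 * (Nat.log 2 Y + 1) * (K + 1)) + 1) + 2) ^ N := by
  obtain ⟨N, hN⟩ := four_gens
  refine ⟨N, ?_⟩
  intro Y E u v hY hE hE2 hu hu2 hv hv2 huv hdvd hE0 huE hvE
  obtain ⟨K, hK1, hK2⟩ := even_member hE hE2
  obtain ⟨B, y, q, hB, hBY, hy, hyY, hueq, hq⟩ := odd_member hu hu2
  obtain ⟨C, z, r, hC, hCY, hz, hzY, hveq, hr⟩ := odd_member hv hv2
  refine ⟨K, hK2, ?_⟩
  set l := Nat.log 2 Y + 1 with hl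
  set Q := 2 * l * (K + 1) with hQ
  have hYl : Y ≤ 2 ^ l := (Nat.lt_pow_succ_log_self (by norm_num) Y).le
  have hE2Q : E ^ 2 ≤ 2 ^ Q := by
    calc E ^ 2 ≤ (Y ^ (K + 1)) ^ 2 := Nat.pow_le_pow_left hK2 2
      _ ≤ ((2 ^ l) ^ (K + 1)) ^ 2 := Nat.pow_le_pow_left (Nat.pow_le_pow_left hYl _) 2
      _ = 2 ^ Q := by
          rw [← pow_mul, ← pow_mul, hQ]
          congr 1
          ring
  have hqQ : q < Q := by
    have h1 : 2 ^ q < 2 ^ Q := lt_of_le_of_lt hq (lt_of_lt_of_le huE hE2Q)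
    exact (Nat.pow_lt_pow_iff_right (by norm_num)).1 h1
  have hrQ : r < Q := by
    have h1 : 2 ^ r < 2 ^ Q := lt_of_le_of_lt hr (lt_of_lt_of_le hvE hE2Q)
    exact (Nat.pow_lt_pow_iff_right (by norm_num)).1 h1
  have hQh : Q < 2 ^ (Nat.log 2 Q + 1) := Nat.lt_pow_succ_log_self (by norm_num) Q
  refine hN l (Nat.log 2 Q + 1) K B y q C z r (by omega) (by omega) hB hy hC hz (by omega) (by omega)
    (by omega) (by omega) (by omega) (by omega) ?_ (by rw [← hueq, ← hveq]; exact huv)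
  rw [← hueq, ← hveq]
  refine dvd_trans ?_ hdvd
  exact_mod_cast hK1

theorem numeric (δ : ℝ) (hδ : 0 < δ) (N : ℕ) : ∃ Y0 : ℕ, ∀ Y : ℕ, Y0 ≤ Y → ∀ K : ℕ,
    (Y : ℝ) ^ δ < 2 * ((K + 1 : ℕ) : ℝ) * Real.log Y →
    ((Nat.log 2 Y + 1) + (Nat.log 2 (2 * (Nat.log 2 Y + 1) * (K + 1)) + 1) + 2) ^ N ≤ K := by
  -- `K ≥ Y ^ (δ / 2)`
  have hlogY : Tendsto (fun Y : ℕ => Real.log (Y : ℝ)) atTop atTop :=
    Real.tendsto_log_atTop.comp tendsto_natCast_atTop_atTop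
  have h1 : ∀ᶠ x : ℝ in atTop, 8 * Real.log x ≤ x ^ (δ / 2) := by
    have h := (isLittleO_log_rpow_atTop (r := δ / 2) (by positivity)).bound
      (show (0 : ℝ) < 1 / 8 by norm_num)
    filter_upwards [h, eventually_ge_atTop 1] with x hx hx1
    rw [Real.norm_eq_abs, Real.norm_eq_abs, abs_of_nonneg (Real.log_nonneg hx1),
      abs_of_nonneg (by positivity)] at hx
    linarith
  have h2 : ∀ᶠ x : ℝ in atTop, ((12 / δ + 16) * Real.log x) ^ N ≤ x := by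
    have h := (Real.isLittleO_pow_log_id_atTop (n := N)).bound
      (show (0 : ℝ) < 1 / (12 / δ + 16) ^ N by positivity)
    filter_upwards [h, eventually_ge_atTop 1] with x hx hx1
    have hl := Real.log_nonneg hx1
    rw [Real.norm_eq_abs, abs_of_nonneg (by positivity), id, Real.norm_eq_abs,
      abs_of_nonneg (by linarith), div_mul_eq_mul_div, one_mul, le_div_iff₀ (by positivity)] at hx
    rw [mul_pow]
    linarith
  obtain ⟨x0, hx0⟩ := eventually_atTop.1 h2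
  have h3 : ∀ᶠ x : ℝ in atTop, max x0 3 ≤ x ^ (δ / 2) :=
    (tendsto_rpow_atTop (by positivity : 0 < δ / 2)).eventually_ge_atTop _
  have h4 : ∀ᶠ Y : ℕ in atTop, 8 * Real.log Y ≤ (Y : ℝ) ^ (δ / 2) ∧ max x0 3 ≤ (Y : ℝ) ^ (δ / 2) ∧
      (1 : ℝ) ≤ Real.log Y ∧ 3 ≤ Y := by
    have e1 := tendsto_natCast_atTop_atTop.eventually h1
    have e2 := tendsto_natCast_atTop_atTop.eventually h3
    filter_upwards [e1, e2, hlogY.eventually_ge_atTop 1, eventually_ge_atTop 3] with Y a b c d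
    exact ⟨a, b, c, d⟩
  obtain ⟨Y0, hY0⟩ := eventually_atTop.1 h4
  refine ⟨Y0, fun Y hY K hK => ?_⟩
  obtain ⟨a1, a2, a3, a4⟩ := hY0 Y hY
  have hYpos : (0 : ℝ) < Y := by
    have : (3 : ℝ) ≤ Y := by exact_mod_cast a4
    linarith
  have hsplit : (Y : ℝ) ^ δ = (Y : ℝ) ^ (δ / 2) * (Y : ℝ) ^ (δ / 2) := by
    rw [← Real.rpow_add hYpos]
    congr 1
    ring
  have hYd : (3 : ℝ) ≤ (Y : ℝ) ^ (δ / 2) := (le_max_right _ _).trans a2
  -- lower bound for `K`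
  have hK1 : (Y : ℝ) ^ (δ / 2) ≤ K := by
    have b1 : 8 * Real.log Y * (Y : ℝ) ^ (δ / 2) ≤ (Y : ℝ) ^ δ := by
      rw [hsplit]
      exact mul_le_mul_of_nonneg_right a1 (by positivity)
    have b2 : 8 * Real.log Y * (Y : ℝ) ^ (δ / 2) < 2 * ((K + 1 : ℕ) : ℝ) * Real.log Y :=
      lt_of_le_of_lt b1 hK
    have b3 : 8 * (Y : ℝ) ^ (δ / 2) < 2 * ((K + 1 : ℕ) : ℝ) := by
      have b4 : 8 * (Y : ℝ) ^ (δ / 2) * Real.log Y < 2 * ((K + 1 : ℕ) : ℝ) * Real.log Y := by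
        linarith
      exact lt_of_mul_lt_mul_right b4 (by linarith)
    push_cast at b3
    linarith
  have hK3 : (3 : ℝ) ≤ K := hYd.trans hK1
  have hKpos : (0 : ℝ) < K := by linarith
  have hKx0 : x0 ≤ K := (le_max_left _ _).trans (a2.trans hK1)
  have hlogK : (δ / 2) * Real.log Y ≤ Real.log K := by
    have b1 := Real.log_le_log (by positivity) hK1
    rwa [Real.log_rpow hYpos] at b1
  have hlogK1 : (1 : ℝ) ≤ Real.log K := by
    have b1 : Real.log 3 ≤ Real.log K := Real.log_le_log (by norm_num) hK3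
    have b2 : (1 : ℝ) ≤ Real.log 3 := by
      rw [Real.le_log_iff_exp_le (by norm_num)]
      have := Real.exp_one_lt_d9
      linarith
    linarith
  -- `Nat.log 2 m ≤ 2 log m`
  have hlog2 : ∀ m : ℕ, 1 ≤ m → (Nat.log 2 m : ℝ) ≤ 2 * Real.log m := by
    intro m hm
    have b1 : 2 ^ Nat.log 2 m ≤ m := Nat.pow_log_le_self 2 (by omega)
    have b2 : ((2 : ℝ)) ^ Nat.log 2 m ≤ m := by exact_mod_cast b1
    have b3 := Real.log_le_log (by positivity) b2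
    rw [Real.log_pow] at b3
    have b4 := Real.log_two_gt_d9
    have b5 : (0 : ℝ) ≤ Nat.log 2 m := Nat.cast_nonneg _
    nlinarith
  set l := Nat.log 2 Y + 1 with hl
  have hlR : (l : ℝ) ≤ 2 * Real.log Y + 1 := by
    rw [hl]
    push_cast
    have := hlog2 Y (by omega)
    linarith
  have hl1 : (1 : ℝ) ≤ l := by
    rw [hl]
    push_cast
    have : (0 : ℝ) ≤ Nat.log 2 Y := Nat.cast_nonneg _
    linarith
  have hlK : (l : ℝ) ≤ 4 / δ * Real.log K + 1 := by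
    have b1 : 2 * Real.log Y ≤ 4 / δ * Real.log K := by
      have b2 : 4 / δ * ((δ / 2) * Real.log Y) ≤ 4 / δ * Real.log K :=
        mul_le_mul_of_nonneg_left hlogK (by positivity)
      have b3 : 4 / δ * ((δ / 2) * Real.log Y) = 2 * Real.log Y := by
        field_simp
        ring
      linarith
    linarith
  set Q := 2 * l * (K + 1) with hQ
  have hQ1 : 1 ≤ Q := Nat.mul_pos (Nat.mul_pos (by norm_num) (by omega)) (by omega)
  have hQlog : Real.log Q ≤ 2 + l + Real.log K := by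
    have b1 : (Q : ℝ) ≤ 4 * l * K := by
      rw [hQ]
      push_cast
      nlinarith
    have b2 : Real.log Q ≤ Real.log (4 * l * K) :=
      Real.log_le_log (by exact_mod_cast hQ1) b1
    rw [Real.log_mul (by positivity) (by positivity), Real.log_mul (by norm_num) (by positivity)] at b2
    have b3 : Real.log l ≤ l := by
      have := Real.log_le_sub_one_of_pos (by linarith : (0 : ℝ) < l)
      linarith
    have b4 : Real.log 4 ≤ 2 := by
      rw [show (4 : ℝ) = 2 ^ 2 by norm_num, Real.log_pow]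
      have := Real.log_two_lt_d9
      push_cast
      linarith
    linarith
  have hhR := hlog2 Q hQ1
  have hfin : ((l + (Nat.log 2 Q + 1) + 2 : ℕ) : ℝ) ≤ (12 / δ + 16) * Real.log K := by
    push_cast
    have b1 : (12 : ℝ) / δ = 3 * (4 / δ) := by ring
    rw [b1]
    have b2 : 0 ≤ 4 / δ * Real.log K := by positivity
    nlinarith
  have hres : (((l + (Nat.log 2 Q + 1) + 2) ^ N : ℕ) : ℝ) ≤ K := by
    push_cast
    refine le_trans ?_ (hx0 K hKx0)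
    refine pow_le_pow_left₀ (by positivity) ?_ N
    have := hfin
    push_cast at this
    exact this
  exact_mod_cast hres

theorem tall (δ : ℝ) (hδ : 0 < δ) : ∃ Y0 : ℕ, ∀ Y : ℕ, Y0 ≤ Y → ∀ t : ℕ × ℕ × ℕ, GF Y t →
    Real.exp ((Y : ℝ) ^ δ) < t.2.2 → t.2.2 < t.1 ^ 2 → t.2.2 < t.2.1 ^ 2 → False := by
  obtain ⟨N, hN⟩ := member_bound
  obtain ⟨Y1, hY1⟩ := numeric δ hδ N
  refine ⟨max Y1 2, ?_⟩
  intro Y hY t ht hexp ha hb
  obtain ⟨⟨ha0, hb0, hc0, hab, hac, hbc, habc⟩, hA, hB, hC⟩ := ht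
  obtain ⟨a, b, c⟩ := t
  simp only at *
  have hY2 : 2 ≤ Y := (le_max_right _ _).trans hY
  have hY1' : Y1 ≤ Y := (le_max_left _ _).trans hY
  have hc2 : 2 < c := by
    have h1 : (1 : ℝ) ≤ (Y : ℝ) ^ δ := Real.one_le_rpow (by exact_mod_cast (by omega : 1 ≤ Y)) hδ.le
    have h2 : Real.exp 1 ≤ Real.exp ((Y : ℝ) ^ δ) := Real.exp_le_exp.2 h1
    have h3 := Real.exp_one_gt_d9
    have h4 : (2 : ℝ) < c := by linarith
    exact_mod_cast h4
  -- main argument for an even member `E`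
  have main : ∀ E u v : ℕ, Mem Y E → Even E → Mem Y u → Odd u → Mem Y v → Odd v → u ≠ v →
      ((E : ℤ) ∣ (u : ℤ) ^ 2 - (v : ℤ) ^ 2) → 0 < E → u ≤ c → v ≤ c → c < E ^ 2 → False := by
    intro E u v hE hE2 hu hu2 hv hv2 huv hdvd hE0 huc hvc hcE
    obtain ⟨K, hK1, hK2⟩ := hN Y E u v hY2 hE hE2 hu hu2 hv hv2 huv hdvd hE0 (by omega) (by omega)
    have h1 : (Y : ℝ) ^ δ < 2 * ((K + 1 : ℕ) : ℝ) * Real.log Y := by
      have h2 : (Y : ℝ) ^ δ < Real.log c := by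
        rw [Real.lt_log_iff_exp_lt (by positivity)]
        exact hexp
      have h3 : (c : ℝ) ≤ ((Y : ℝ) ^ (K + 1)) ^ 2 := by
        have h4 : c ≤ (Y ^ (K + 1)) ^ 2 := hcE.le.trans (Nat.pow_le_pow_left hK1 2)
        exact_mod_cast h4
      have h4 := Real.log_le_log (by positivity) h3
      rw [Real.log_pow, Real.log_pow] at h4
      push_cast at h4 ⊢
      linarith
    have h5 := hY1 Y hY1' K h1
    omega
  have hcop2 : ∀ x y : ℕ, Nat.Coprime x y → ¬ (Even x ∧ Even y) := by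
    rintro x y hxy ⟨h1, h2⟩
    have h3 := Nat.dvd_gcd (even_iff_two_dvd.1 h1) (even_iff_two_dvd.1 h2)
    rw [hxy] at h3
    omega
  rcases Nat.even_or_odd c with hce | hco
  · -- `c` even
    have hao : Odd a := by
      rcases Nat.even_or_odd a with h | h
      · exact absurd ⟨h, hce⟩ (hcop2 a c hac)
      · exact h
    have hbo : Odd b := by
      rcases Nat.even_or_odd b with h | h
      · exact absurd ⟨h, hce⟩ (hcop2 b c hbc)
      · exact h
    refine main c a b hC hce hA hao hB hbo ?_ ?_ hc0 (by omega) (by omega) ?_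
    · rintro rfl
      have h1 : a = 1 := by simpa using hab
      omega
    · refine ⟨(a : ℤ) - b, ?_⟩
      have : (c : ℤ) = a + b := by exact_mod_cast habc.symm
      rw [this]
      ring
    · nlinarith
  · rcases Nat.even_or_odd a with hae | hao
    · have hbo : Odd b := by
        rcases Nat.even_or_odd b with h | h
        · exact absurd ⟨hae, h⟩ (hcop2 a b hab)
        · exact h
      refine main a c b hA hae hC hco hB hbo (by omega) ?_ ha0 le_rfl (by omega) ha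
      refine ⟨(c : ℤ) + b, ?_⟩
      have : (c : ℤ) = a + b := by exact_mod_cast habc.symm
      rw [this]
      ring
    · have hbe : Even b := by
        rcases Nat.even_or_odd b with h | h
        · exact h
        · exfalso
          have h1 : Even (a + b) := hao.add_odd h
          rw [habc] at h1
          exact (Nat.not_even_iff_odd.2 hco) h1
      refine main b c a hB hbe hC hco hA hao (by omega) ?_ hb0 le_rfl (by omega) hb
      refine ⟨(c : ℤ) + a, ?_⟩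
      have : (c : ℤ) = a + b := by exact_mod_cast habc.symm
      rw [this]
      ring

end Pool.Agent.Lib.FermX
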