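import Pool.Agent.Lib.FermX.Arch
import Pool.Agent.Lib.FermX.Tall
import Pool.Agent.Lib.FewX.TransA

/-!
# FermX.Main: the counting theorems (1.5 h)

`gf_count`: `few_powers 2 (ε/2)` gives `M1, δ, Y1` (`Powers 2 Y (A x^p)`: `![A, x]`, `![1, p]`, coefficients `A = B = C = 1`), `arch (ε/2)` gives `M2, Y2`,
`tall δ` gives `Y3`; `M = max M1 M2`. A finset of such triples is covered by the two parts (`c ≤ exp (Y^δ)`; or a member with square `≤ c`):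
`2 * Y^(ε/2) ≤ Y^ε` for `Y` large.
`gfm_count`: `M1` of `gf_count (ε/2)`, `M ≥ 8 M1 / ε` etc.; triples with `c ≥ Y^M1` are `GF Y`; those with `c < Y^M1`: `a = A x^p ≤ Y^M1`, `p ≥ M`: `x = 1` or
`x^M ≤ Y^M1`, so `x ≤ Y^(M1/M) ≤ Y^(ε/8)` and `p ≤ log2 (Y^M1)`: `a` takes at most `1 + Y^(ε/8) * (M1 * log2 Y + M1 + 1)` values, `b` the same, and `(a, b)` determines `c`.
`pow_count`: `gfm_count` with `A = B = C = 1`, `Y = floor (X^(1/M))`: members `≤ X` that are powers `x^p`, `p ≥ M` have `x ≤ Y`; here the threshold for `X` is `Y0^M`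
(monotone in the exponent bound: exponents `≥ M ≥ M0`).
-/

namespace Pool.Agent.Lib.FermX

open Pool.Agent.Lib.FewX

namespace MainAux

theorem mem_powers {Y m : ℕ} (h : Mem Y m) : Powers 2 Y m := by
  obtain ⟨A, x, p, hA, hAY, hx1, hxY, hm⟩ := h
  refine ⟨![A, x], ![1, p], ?_, ?_⟩
  · intro i
    fin_cases i
    · exact ⟨hA.pos, hAY⟩
    · exact ⟨hx1, hxY⟩
  · rw [hm]
    simp [Fin.prod_univ_two]

theorem two_le_rpow {ε : ℝ} (hε : 0 < ε) {Y : ℕ} (hY : ⌈(2 : ℝ) ^ (2 / ε)⌉₊ ≤ Y) :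
    (2 : ℝ) ≤ (Y : ℝ) ^ (ε / 2) := by
  have h1 : (2 : ℝ) ^ (2 / ε) ≤ Y := (Nat.le_ceil _).trans (by exact_mod_cast hY)
  have h2 := Real.rpow_le_rpow (by positivity) h1 (by positivity : (0 : ℝ) ≤ ε / 2)
  rw [← Real.rpow_mul (by norm_num)] at h2
  have h3 : 2 / ε * (ε / 2) = 1 := by field_simp
  rwa [h3, Real.rpow_one] at h2

theorem two_mul_half {ε : ℝ} (hε : 0 < ε) {Y : ℕ} (hY1 : 1 ≤ Y)
    (hY : ⌈(2 : ℝ) ^ (2 / ε)⌉₊ ≤ Y) : 2 * (Y : ℝ) ^ (ε / 2) ≤ (Y : ℝ) ^ ε := by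
  have hY0 : (0 : ℝ) < Y := by exact_mod_cast hY1
  have h1 := two_le_rpow hε hY
  have h2 : (Y : ℝ) ^ ε = (Y : ℝ) ^ (ε / 2) * (Y : ℝ) ^ (ε / 2) := by
    rw [← Real.rpow_add hY0]
    congr 1
    ring
  rw [h2]
  exact mul_le_mul_of_nonneg_right h1 (by positivity)

/-- The values of one member below `Y ^ M1`. -/
theorem member {A Y M M1 X1 L : ℕ} (hA : 0 < A) (hY : 2 ≤ Y) (hM : 0 < M)
    (hX1 : ((Y : ℝ) ^ ((M1 : ℝ) / M)) < X1 + 1) (hX0 : 1 ≤ X1) (hL : Y ^ M1 < 2 ^ (L + 1)) {x p : ℕ}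
    (hx : 1 ≤ x) (hp : M ≤ p) (h : A * x ^ p < Y ^ M1) :
    A * x ^ p ∈ (Finset.Icc 1 X1 ×ˢ Finset.range (L + 1)).image fun u => A * u.1 ^ u.2 := by
  rw [Finset.mem_image]
  have h1 : x ^ p < Y ^ M1 := lt_of_le_of_lt (Nat.le_mul_of_pos_left _ hA) h
  rcases Nat.lt_or_ge x 2 with h2 | h2
  · have h3 : x = 1 := by omega
    refine ⟨(1, 0), ?_, ?_⟩
    · rw [Finset.mem_product, Finset.mem_Icc, Finset.mem_range]
      exact ⟨⟨le_rfl, hX0⟩, by simp⟩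
    · simp [h3]
  · refine ⟨(x, p), ?_, rfl⟩
    rw [Finset.mem_product, Finset.mem_Icc, Finset.mem_range]
    refine ⟨⟨hx, ?_⟩, ?_⟩
    · have h3 : x ^ M < Y ^ M1 := lt_of_le_of_lt (Nat.pow_le_pow_right hx hp) h1
      have h4 : ((x : ℝ)) ^ M ≤ (Y : ℝ) ^ M1 := by exact_mod_cast h3.le
      have h5 : (x : ℝ) ≤ (Y : ℝ) ^ ((M1 : ℝ) / M) := by
        have h6 := Real.rpow_le_rpow (by positivity) h4 (by positivity : (0 : ℝ) ≤ 1 / (M : ℝ))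
        rw [← Real.rpow_natCast, ← Real.rpow_natCast, ← Real.rpow_mul (by positivity),
          ← Real.rpow_mul (by positivity)] at h6
        have hM0 : (M : ℝ) ≠ 0 := by
          have : M ≠ 0 := by omega
          exact_mod_cast this
        rw [mul_one_div_cancel hM0, Real.rpow_one] at h6
        rwa [mul_one_div] at h6
      have h7 : (x : ℝ) < ((X1 + 1 : ℕ) : ℝ) := by
        push_cast
        linarith
      have h8 : x < X1 + 1 := by exact_mod_cast h7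
      omega
    · have h3 : 2 ^ p < 2 ^ (L + 1) :=
        lt_of_le_of_lt (Nat.pow_le_pow_left h2 p) (h1.trans hL)
      exact (Nat.pow_lt_pow_iff_right (by norm_num)).1 h3

end MainAux

theorem gf_count (ε : ℝ) (hε : 0 < ε) : ∃ M Y0 : ℕ, 2 ≤ Y0 ∧ ∀ Y : ℕ, Y0 ≤ Y → ∀ T : Finset (ℕ × ℕ × ℕ),
    (∀ t ∈ T, GF Y t ∧ Y ^ M ≤ t.2.2) → (T.card : ℝ) ≤ (Y : ℝ) ^ ε := by
  classical
  obtain ⟨M1, δ, Y1, hδ, hY1, hfew⟩ := few_powers 2 (ε / 2) (by positivity)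
  obtain ⟨M2, Y2, hY2, harch⟩ := arch (ε / 2) (by positivity)
  obtain ⟨Y3, htall⟩ := tall δ hδ
  refine ⟨max M1 M2, max Y1 (max Y2 (max Y3 ⌈(2 : ℝ) ^ (2 / ε)⌉₊)), hY1.trans (le_max_left _ _),
    ?_⟩
  intro Y hY T hT
  have g1 : Y1 ≤ Y := (le_max_left _ _).trans hY
  have g2 : Y2 ≤ Y := ((le_max_left _ _).trans (le_max_right _ _)).trans hY
  have g3 : Y3 ≤ Y :=
    (((le_max_left _ _).trans (le_max_right _ _)).trans (le_max_right _ _)).trans hY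
  have g4 : ⌈(2 : ℝ) ^ (2 / ε)⌉₊ ≤ Y :=
    (((le_max_right _ _).trans (le_max_right _ _)).trans (le_max_right _ _)).trans hY
  have gY : 1 ≤ Y := by omega
  have hle1 : ((T.filter fun t => (t.2.2 : ℝ) ≤ Real.exp ((Y : ℝ) ^ δ)).card : ℝ) ≤
      (Y : ℝ) ^ (ε / 2) := by
    refine hfew Y g1 1 1 1 _ ?_
    intro t ht
    obtain ⟨htT, hc⟩ := Finset.mem_filter.1 ht
    obtain ⟨⟨habc, hA, hB, hC⟩, hM⟩ := hT t htT
    exact ⟨habc, ⟨t.1, MainAux.mem_powers hA, (one_mul _).symm⟩,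
      ⟨t.2.1, MainAux.mem_powers hB, (one_mul _).symm⟩,
      ⟨t.2.2, MainAux.mem_powers hC, (one_mul _).symm⟩,
      (Nat.pow_le_pow_right gY (le_max_left _ _)).trans hM, hc⟩
  have hle2 : ((T.filter fun t => ¬ (t.2.2 : ℝ) ≤ Real.exp ((Y : ℝ) ^ δ)).card : ℝ) ≤
      (Y : ℝ) ^ (ε / 2) := by
    refine harch Y g2 _ ?_
    intro t ht
    obtain ⟨htT, hc⟩ := Finset.mem_filter.1 ht
    obtain ⟨hG, hM⟩ := hT t htT
    refine ⟨hG, (Nat.pow_le_pow_right gY (le_max_right _ _)).trans hM, ?_⟩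
    by_contra hcon
    push Not at hcon
    exact htall Y g3 t hG (not_le.1 hc) hcon.1 hcon.2
  have hsum := Finset.card_filter_add_card_filter_not (s := T)
    (fun t => (t.2.2 : ℝ) ≤ Real.exp ((Y : ℝ) ^ δ))
  have hsum' : (T.card : ℝ) =
      ((T.filter fun t => (t.2.2 : ℝ) ≤ Real.exp ((Y : ℝ) ^ δ)).card : ℝ) +
      ((T.filter fun t => ¬ (t.2.2 : ℝ) ≤ Real.exp ((Y : ℝ) ^ δ)).card : ℝ) := by
    exact_mod_cast hsum.symm
  have h2 := MainAux.two_mul_half hε gY g4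
  rw [hsum']
  linarith

theorem gfm_count (ε : ℝ) (hε : 0 < ε) : ∃ M Y0 : ℕ, 2 ≤ Y0 ∧ ∀ Y : ℕ, Y0 ≤ Y →
    ∀ A B C : ℕ, Odd A → Odd B → Odd C → A ≤ Y → B ≤ Y → C ≤ Y → ∀ T : Finset (ℕ × ℕ × ℕ),
    (∀ t ∈ T, GFM A B C M Y t) → (T.card : ℝ) ≤ (Y : ℝ) ^ ε := by
  classical
  obtain ⟨M1, Y1, hY1, hgf⟩ := gf_count (ε / 2) (by positivity)
  obtain ⟨M, hM⟩ : ∃ M : ℕ, M = ⌈8 * (M1 : ℝ) / ε⌉₊ + 1 := ⟨_, rfl⟩
  have hM0 : 0 < M := by omega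
  have hMr : 8 * (M1 : ℝ) / ε ≤ M := by
    have h1 := Nat.le_ceil (8 * (M1 : ℝ) / ε)
    have h2 : ((⌈8 * (M1 : ℝ) / ε⌉₊ : ℕ) : ℝ) ≤ M := by
      have : ⌈8 * (M1 : ℝ) / ε⌉₊ ≤ M := by omega
      exact_mod_cast this
    linarith
  have hM0r : (0 : ℝ) < M := by exact_mod_cast hM0
  have hexp : (M1 : ℝ) / M ≤ ε / 8 := by
    rw [div_le_iff₀ hM0r]
    rw [div_le_iff₀ hε] at hMr
    linarith
  obtain ⟨Y4, hY4⟩ := (Pool.Agent.Lib.Pabc9.ev_poly_log ((2 * M1 + 2) ^ 2 : ℝ) 2 (ε / 8)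
    (by positivity)).exists_forall_of_atTop
  refine ⟨M, max Y1 (max Y4 ⌈(2 : ℝ) ^ (2 / ε)⌉₊), hY1.trans (le_max_left _ _), ?_⟩
  intro Y hY A B C hA hB hC hAY hBY hCY T hT
  have g1 : Y1 ≤ Y := (le_max_left _ _).trans hY
  have g2 : Y4 ≤ Y := ((le_max_left _ _).trans (le_max_right _ _)).trans hY
  have g4 : ⌈(2 : ℝ) ^ (2 / ε)⌉₊ ≤ Y := ((le_max_right _ _).trans (le_max_right _ _)).trans hY
  have gY : 2 ≤ Y := hY1.trans g1
  have gY' : 1 ≤ Y := by omega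
  have gYr : (1 : ℝ) ≤ Y := by exact_mod_cast gY'
  have gY0 : (0 : ℝ) < Y := by linarith
  -- the large triples
  have hle1 : ((T.filter fun t => Y ^ M1 ≤ t.2.2).card : ℝ) ≤ (Y : ℝ) ^ (ε / 2) := by
    refine hgf Y g1 _ ?_
    intro t ht
    obtain ⟨htT, hc⟩ := Finset.mem_filter.1 ht
    obtain ⟨habc, x, y, z, p, q, r, hx1, hxY, hy1, hyY, hz1, hzY, -, -, -, ha, hb, hc'⟩ := hT t htT
    exact ⟨⟨habc, ⟨A, x, p, hA, hAY, hx1, hxY, ha⟩, ⟨B, y, q, hB, hBY, hy1, hyY, hb⟩,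
      ⟨C, z, r, hC, hCY, hz1, hzY, hc'⟩⟩, hc⟩
  -- the small triples
  obtain ⟨X1, hX1⟩ : ∃ X1 : ℕ, X1 = ⌊(Y : ℝ) ^ ((M1 : ℝ) / M)⌋₊ := ⟨_, rfl⟩
  obtain ⟨L, hL⟩ : ∃ L : ℕ, L = Nat.log 2 (Y ^ M1) := ⟨_, rfl⟩
  have hX1a : (Y : ℝ) ^ ((M1 : ℝ) / M) < X1 + 1 := by
    rw [hX1]
    exact Nat.lt_floor_add_one _
  have hX1b : (X1 : ℝ) ≤ (Y : ℝ) ^ (ε / 8) := by
    rw [hX1]
    exact (Nat.floor_le (by positivity)).trans (Real.rpow_le_rpow_of_exponent_le gYr hexp)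
  have hX1c : 1 ≤ X1 := by
    rw [hX1]
    exact Nat.le_floor (by simpa using Real.one_le_rpow gYr (by positivity : (0 : ℝ) ≤ M1 / M))
  have hLa : Y ^ M1 < 2 ^ (L + 1) := by
    rw [hL]
    exact Nat.lt_pow_succ_log_self (by norm_num) _
  have hLb : (L : ℝ) + 1 ≤ (2 * M1 + 2) * (1 + Real.log Y) := by
    have h1 : 2 ^ L ≤ Y ^ M1 := by
      rw [hL]
      exact Nat.pow_log_le_self 2 (pow_pos gY' _).ne'
    have h2 : (2 : ℝ) ^ L ≤ (Y : ℝ) ^ M1 := by exact_mod_cast h1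
    have h3 := Real.log_le_log (by positivity) h2
    rw [Real.log_pow, Real.log_pow] at h3
    have h4 := Real.log_two_gt_d9
    have h5 : 0 ≤ Real.log Y := Real.log_nonneg gYr
    have h6 : (0 : ℝ) ≤ L := Nat.cast_nonneg _
    have h7 : (0 : ℝ) ≤ M1 := Nat.cast_nonneg _
    have h8 : (L : ℝ) ≤ 2 * (M1 * Real.log Y) := by nlinarith
    nlinarith [mul_nonneg h7 h5]
  let FF : ℕ → Finset ℕ := fun D =>
    (Finset.Icc 1 X1 ×ˢ Finset.range (L + 1)).image fun u => D * u.1 ^ u.2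
  have hFF : ∀ D, (FF D).card ≤ X1 * (L + 1) := by
    intro D
    refine Finset.card_image_le.trans ?_
    rw [Finset.card_product, Nat.card_Icc, Finset.card_range]
    simp
  have hle2 : ((T.filter fun t => ¬ Y ^ M1 ≤ t.2.2).card : ℝ) ≤ (Y : ℝ) ^ (ε / 2) := by
    have h1 : (T.filter fun t => ¬ Y ^ M1 ≤ t.2.2).card ≤ (FF A ×ˢ FF B).card := by
      refine Finset.card_le_card_of_injOn (fun t => (t.1, t.2.1)) ?_ ?_
      · intro t ht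
        obtain ⟨htT, hc⟩ := Finset.mem_filter.1 (Finset.mem_coe.1 ht)
        obtain ⟨habc, x, y, z, p, q, r, hx1, hxY, hy1, hyY, hz1, hzY, hp, hq, hr, ha, hb, hc'⟩ :=
          hT t htT
        obtain ⟨h1, h2, h3, -, -, -, h7⟩ := habc
        rw [Finset.mem_coe, Finset.mem_product]
        refine ⟨?_, ?_⟩
        · show t.1 ∈ FF A
          rw [ha]
          exact MainAux.member hA.pos gY hM0 hX1a hX1c hLa hx1 hp (by rw [← ha]; omega)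
        · show t.2.1 ∈ FF B
          rw [hb]
          exact MainAux.member hB.pos gY hM0 hX1a hX1c hLa hy1 hq (by rw [← hb]; omega)
      · intro t ht t' ht' h
        obtain ⟨htT, -⟩ := Finset.mem_filter.1 (Finset.mem_coe.1 ht)
        obtain ⟨htT', -⟩ := Finset.mem_filter.1 (Finset.mem_coe.1 ht')
        have e1 := (hT t htT).1.2.2.2.2.2.2
        have e2 := (hT t' htT').1.2.2.2.2.2.2
        simp only [Prod.mk.injEq] at h
        exact Prod.ext h.1 (Prod.ext h.2 (by omega))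
    have h2 : (T.filter fun t => ¬ Y ^ M1 ≤ t.2.2).card ≤ (X1 * (L + 1)) * (X1 * (L + 1)) := by
      refine h1.trans ?_
      rw [Finset.card_product]
      exact Nat.mul_le_mul (hFF A) (hFF B)
    have h3 : ((T.filter fun t => ¬ Y ^ M1 ≤ t.2.2).card : ℝ) ≤
        ((X1 : ℝ) * (L + 1)) * (X1 * (L + 1)) := by exact_mod_cast h2
    refine h3.trans ?_
    have h4 := hY4 Y g2
    have h5 : (0 : ℝ) ≤ Real.log Y := Real.log_nonneg gYr
    have h6 : ((L : ℝ) + 1) ^ 2 ≤ (Y : ℝ) ^ (ε / 8) := by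
      refine le_trans ?_ h4
      rw [← mul_pow]
      exact pow_le_pow_left₀ (by positivity) hLb 2
    calc ((X1 : ℝ) * (L + 1)) * (X1 * (L + 1)) = (X1 : ℝ) * X1 * ((L : ℝ) + 1) ^ 2 := by ring
      _ ≤ (Y : ℝ) ^ (ε / 8) * (Y : ℝ) ^ (ε / 8) * (Y : ℝ) ^ (ε / 8) := by
          refine mul_le_mul (mul_le_mul hX1b hX1b (by positivity) (by positivity)) h6
            (by positivity) (by positivity)
      _ = (Y : ℝ) ^ (3 * ε / 8) := by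
          rw [← Real.rpow_add gY0, ← Real.rpow_add gY0]
          congr 1
          ring
      _ ≤ (Y : ℝ) ^ (ε / 2) := Real.rpow_le_rpow_of_exponent_le gYr (by linarith)
  have hsum := Finset.card_filter_add_card_filter_not (s := T) (fun t => Y ^ M1 ≤ t.2.2)
  have hsum' : (T.card : ℝ) = ((T.filter fun t => Y ^ M1 ≤ t.2.2).card : ℝ) +
      ((T.filter fun t => ¬ Y ^ M1 ≤ t.2.2).card : ℝ) := by
    exact_mod_cast hsum.symm
  have h2 := MainAux.two_mul_half hε gY' g4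
  rw [hsum']
  linarith

/-- triples of perfect powers with exponents at least `M` below `X`, uniformly in `M` -/
theorem pow_count (ε : ℝ) (hε : 0 < ε) : ∃ M0 Y0 : ℕ, 2 ≤ Y0 ∧ ∀ M : ℕ, M0 ≤ M → ∀ X : ℕ, Y0 ^ M ≤ X →
    ∀ T : Finset (ℕ × ℕ × ℕ),
    (∀ t ∈ T, AbcTriple t.1 t.2.1 t.2.2 ∧ t.2.2 ≤ X ∧ (∃ x p, M ≤ p ∧ t.1 = x ^ p) ∧
      (∃ y q, M ≤ q ∧ t.2.1 = y ^ q) ∧ (∃ z r, M ≤ r ∧ t.2.2 = z ^ r)) →
    (T.card : ℝ) ≤ (X : ℝ) ^ (ε / M) := by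
  obtain ⟨M1, Y1, hY1, hgfm⟩ := gfm_count ε hε
  refine ⟨max M1 1, Y1, hY1, ?_⟩
  intro M hM X hX T hT
  have hM1 : M1 ≤ M := (le_max_left _ _).trans hM
  have hM0 : 1 ≤ M := (le_max_right _ _).trans hM
  have hMr : (0 : ℝ) < M := by exact_mod_cast hM0
  have hX0 : (0 : ℝ) ≤ X := Nat.cast_nonneg X
  obtain ⟨Y, hYdef⟩ : ∃ Y : ℕ, Y = ⌊(X : ℝ) ^ (1 / (M : ℝ))⌋₊ := ⟨_, rfl⟩
  have hroot : ∀ x : ℕ, x ^ M ≤ X → x ≤ Y := by
    intro x hx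
    rw [hYdef]
    apply Nat.le_floor
    have h1 : ((x : ℝ)) ^ M ≤ X := by exact_mod_cast hx
    have h2 := Real.rpow_le_rpow (by positivity) h1 (by positivity : (0 : ℝ) ≤ 1 / (M : ℝ))
    rw [← Real.rpow_natCast, ← Real.rpow_mul (by positivity), mul_one_div_cancel hMr.ne',
      Real.rpow_one] at h2
    exact h2
  have hYY : Y1 ≤ Y := hroot Y1 hX
  have hbase : ∀ x p : ℕ, M ≤ p → 0 < x ^ p → x ^ p ≤ X → 1 ≤ x ∧ x ≤ Y := by
    intro x p hp h0 hx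
    have hx1 : 1 ≤ x := by
      rcases Nat.eq_zero_or_pos x with h | h
      · rw [h, zero_pow (by omega)] at h0
        omega
      · exact h
    exact ⟨hx1, hroot x ((Nat.pow_le_pow_right hx1 hp).trans hx)⟩
  have hmain := hgfm Y hYY 1 1 1 odd_one odd_one odd_one (by omega) (by omega) (by omega) T (by
    intro t ht
    obtain ⟨habc, hcX, ⟨x, p, hp, ha⟩, ⟨y, q, hq, hb⟩, ⟨z, r, hr, hc⟩⟩ := hT t ht
    refine ⟨habc, x, y, z, p, q, r, ?_⟩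
    obtain ⟨h1, h2, h3, -, -, -, h7⟩ := habc
    obtain ⟨gx1, gx2⟩ := hbase x p hp (by rw [← ha]; exact h1) (by rw [← ha]; omega)
    obtain ⟨gy1, gy2⟩ := hbase y q hq (by rw [← hb]; exact h2) (by rw [← hb]; omega)
    obtain ⟨gz1, gz2⟩ := hbase z r hr (by rw [← hc]; exact h3) (by rw [← hc]; omega)
    exact ⟨gx1, gx2, gy1, gy2, gz1, gz2, hM1.trans hp, hM1.trans hq, hM1.trans hr,
      by rw [one_mul]; exact ha, by rw [one_mul]; exact hb, by rw [one_mul]; exact hc⟩)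
  refine hmain.trans ?_
  have h1 : (Y : ℝ) ≤ (X : ℝ) ^ (1 / (M : ℝ)) := by
    rw [hYdef]
    exact Nat.floor_le (by positivity)
  have h2 := Real.rpow_le_rpow (Nat.cast_nonneg Y) h1 hε.le
  refine h2.trans (le_of_eq ?_)
  rw [← Real.rpow_mul hX0]
  congr 1
  ring

end Pool.Agent.Lib.FermX
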